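import Mathlib
import Pool.Agent.W786.Ls.Stm
set_option autoImplicit false

/-!
LS-APX: Parseval and approximation by trigonometric polynomials on the cube.
-/

namespace Pool.Agent.W597.LS

open MeasureTheory Set Complex Filter Topology Pool.Agent.W786.Ls
open scoped ENNReal NNReal ComplexConjugate

attribute [local instance 2000] instMeasureSpaceUnitAddCircle

local instance : IsProbabilityMeasure (volume : Measure UnitAddCircle) :=
  inferInstanceAs (IsProbabilityMeasure AddCircle.haarAddCircle)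

/-- the centred box of side one -/
def Q (m : ℕ) : Set (Fin m → ℝ) := {x | ∀ i, x i ∈ Ioc (-1 / 2 : ℝ) (-1 / 2 + 1)}

theorem Q_meas (m : ℕ) : MeasurableSet (Q m) := MeasurableSet.univ_pi' fun _ => measurableSet_Ioc

theorem restr (m : ℕ) : (volume : Measure (Fin m → ℝ)).restrict (CB m) =
    (2 : ℝ≥0∞) ^ m • Measure.map (fun x => (2 : ℝ) • x)
      ((volume : Measure (Fin m → ℝ)).restrict (Q m)) := by
  have h1 : (volume : Measure (Fin m → ℝ)).restrict (CB m) =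
      volume.restrict (Set.pi univ fun _ => Ioc (-1 : ℝ) 1) := by
    apply Measure.restrict_congr_set
    have e1 : (CB m) =ᵐ[volume] Icc (fun _ => (-1 : ℝ)) (fun _ => 1) :=
      Measure.univ_pi_Ico_ae_eq_Icc
    have e2 : (Set.pi univ fun _ : Fin m => Ioc (-1 : ℝ) 1) =ᵐ[volume]
      Icc (fun _ => (-1 : ℝ)) (fun _ => 1) := Measure.univ_pi_Ioc_ae_eq_Icc
    exact e1.trans e2.symm
  have h2 := Measure.map_addHaar_smul (volume : Measure (Fin m → ℝ)) (r := 2) two_ne_zero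
  have h3 : (volume : Measure (Fin m → ℝ)) = (2 : ℝ≥0∞) ^ m •
      Measure.map (fun x => (2 : ℝ) • x) (volume : Measure (Fin m → ℝ)) := by
    rw [h2, smul_smul, Module.finrank_fin_fun, abs_of_nonneg (by positivity),
      ENNReal.ofReal_inv_of_pos (by positivity), ENNReal.ofReal_pow (by norm_num)]
    have : ENNReal.ofReal 2 = 2 := by norm_num
    rw [this, ENNReal.mul_inv_cancel (by positivity) (by simp), one_smul]
  rw [h1, h3]
  conv_lhs => rw [Measure.restrict_smul]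
  rw [Measure.restrict_map (by fun_prop) (MeasurableSet.univ_pi fun _ => measurableSet_Ioc)]
  congr 3
  ext x
  simp only [mem_preimage, Set.mem_pi, mem_univ, true_implies, Q, mem_ofPred_eq, mem_Ioc,
    Pi.smul_apply, smul_eq_mul]
  refine forall_congr' fun i => ?_
  constructor
  · rintro ⟨h4, h5⟩
    constructor <;> linarith
  · rintro ⟨h4, h5⟩
    constructor <;> linarith

theorem emb (m : ℕ) : MeasurableEmbedding fun x : Fin m → ℝ => (2 : ℝ) • x :=
  measurableEmbedding_const_smul₀ two_ne_zero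

theorem lintT {m : ℕ} (F : (Fin m → ℝ) → ℝ≥0∞) (f : UnitAddTorus (Fin m) → ℝ≥0∞)
    (h : ∀ x ∈ Q m, F ((2 : ℝ) • x) = f (fun i => (x i : UnitAddCircle))) :
    ∫⁻ v in CB m, F v = 2 ^ m * ∫⁻ x, f x := by
  rw [restr, lintegral_smul_measure, (emb m).lintegral_map, smul_eq_mul,
    UnitAddTorus.lintegral_preimage f (fun _ => -1 / 2)]
  congr 1
  exact setLIntegral_congr_fun (Q_meas m) h

theorem intT {m : ℕ} (F : (Fin m → ℝ) → ℂ) (f : UnitAddTorus (Fin m) → ℂ)
    (h : ∀ x ∈ Q m, F ((2 : ℝ) • x) = f (fun i => (x i : UnitAddCircle))) :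
    ∫ v in CB m, F v = ((2 : ℝ≥0∞) ^ m).toReal • ∫ x, f x := by
  rw [restr, integral_smul_measure, (emb m).integral_map,
    UnitAddTorus.integral_preimage f (fun _ => -1 / 2)]
  congr 1
  exact setIntegral_congr_fun (Q_meas m) h

theorem ek_two {m : ℕ} (k : Fin m → ℤ) (x : Fin m → ℝ) :
    ek k ((2 : ℝ) • x) = UnitAddTorus.mFourier k (fun i => (x i : UnitAddCircle)) := by
  unfold ek
  simp only [UnitAddTorus.mFourier, ContinuousMap.coe_mk, fourier_coe_apply, Pi.smul_apply,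
    smul_eq_mul]
  rw [← Complex.exp_sum]
  congr 1
  push_cast
  rw [Finset.mul_sum]
  refine Finset.sum_congr rfl fun i _ => ?_
  ring

theorem trig_two {m : ℕ} (S : Finset (Fin m → ℤ)) (c : (Fin m → ℤ) → ℂ) (x : Fin m → ℝ) :
    trig S c ((2 : ℝ) • x) =
      (∑ k ∈ S, c k • UnitAddTorus.mFourier k) (fun i => (x i : UnitAddCircle)) := by
  unfold trig
  rw [ContinuousMap.sum_apply]
  refine Finset.sum_congr rfl fun k _ => ?_
  rw [ek_two, ContinuousMap.smul_apply, smul_eq_mul]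

theorem l2norm {α : Type} [MeasurableSpace α] {μ : Measure α} (φ : Lp ℂ 2 μ) :
    ∫⁻ x, ‖φ x‖ₑ ^ 2 ∂μ = ‖φ‖ₑ ^ 2 := by
  rw [Lp.enorm_def, eLpNorm_eq_lintegral_rpow_enorm_toReal (by norm_num) (by norm_num)]
  simp only [ENNReal.toReal_ofNat, ENNReal.rpow_ofNat]
  rw [← ENNReal.rpow_natCast, ← ENNReal.rpow_mul]
  norm_num

theorem l2sum {m : ℕ} (S : Finset (Fin m → ℤ)) (c : (Fin m → ℤ) → ℂ) :
    ‖∑ k ∈ S, c k • UnitAddTorus.mFourierLp (d := Fin m) 2 k‖ₑ ^ 2 = ∑ k ∈ S, ‖c k‖ₑ ^ 2 := by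
  have h := (UnitAddTorus.orthonormal_mFourier (d := Fin m)).inner_sum c c S
  have h2 : ‖∑ k ∈ S, c k • UnitAddTorus.mFourierLp (d := Fin m) 2 k‖ ^ 2 =
      ∑ k ∈ S, ‖c k‖ ^ 2 := by
    have h3 := inner_self_eq_norm_sq (𝕜 := ℂ)
      (∑ k ∈ S, c k • UnitAddTorus.mFourierLp (d := Fin m) 2 k)
    rw [h, map_sum] at h3
    rw [← h3]
    refine Finset.sum_congr rfl fun k _ => ?_
    rw [← Complex.normSq_eq_norm_sq, ← Complex.normSq_eq_conj_mul_self]
    simp
  have h4 : ∀ x : ℝ, ‖x‖ₑ ^ 2 = ENNReal.ofReal (x ^ 2) := by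
    intro x
    rw [← ofReal_norm, ← ENNReal.ofReal_pow (norm_nonneg _), Real.norm_eq_abs, sq_abs]
  rw [← ofReal_norm, ← ENNReal.ofReal_pow (norm_nonneg _), h2,
    ENNReal.ofReal_sum_of_nonneg (fun _ _ => by positivity)]
  refine Finset.sum_congr rfl fun k _ => ?_
  rw [← ofReal_norm, ← ENNReal.ofReal_pow (norm_nonneg _)]

theorem toLp_sum {m : ℕ} (S : Finset (Fin m → ℤ)) (c : (Fin m → ℤ) → ℂ) :
    ((∑ k ∈ S, c k • UnitAddTorus.mFourierLp (d := Fin m) 2 k : Lp ℂ 2 volume) :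
      UnitAddTorus (Fin m) → ℂ) =ᵐ[volume] (∑ k ∈ S, c k • UnitAddTorus.mFourier k :
        C(UnitAddTorus (Fin m), ℂ)) := by
  have h : (∑ k ∈ S, c k • UnitAddTorus.mFourierLp (d := Fin m) 2 k : Lp ℂ 2 volume) =
      ContinuousMap.toLp (E := ℂ) 2 volume ℂ (∑ k ∈ S, c k • UnitAddTorus.mFourier k) := by
    rw [map_sum]
    simp only [map_smul]
  rw [h]
  exact ContinuousMap.coeFn_toLp volume _

/-- **PARS** -/
theorem pars : ParsStm := by
  intro m S c
  rw [lintT (fun v => ‖trig S c v‖ₑ ^ 2)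
    (fun x => ‖(∑ k ∈ S, c k • UnitAddTorus.mFourier k : C(UnitAddTorus (Fin m), ℂ)) x‖ₑ ^ 2)
    (fun x _ => by rw [trig_two])]
  congr 1
  rw [← l2sum, ← l2norm]
  refine lintegral_congr_ae ?_
  filter_upwards [toLp_sum S c] with x hx
  rw [hx]

/-- the function on the torus -/
noncomputable def gt {m : ℕ} (g : (Fin m → ℝ) → ℂ) (x : UnitAddTorus (Fin m)) : ℂ :=
  g ((2 : ℝ) • fun i => (AddCircle.equivIoc 1 (-1 / 2 : ℝ) (x i) : ℝ))

theorem gt_coe {m : ℕ} (g : (Fin m → ℝ) → ℂ) (x : Fin m → ℝ) (hx : x ∈ Q m) :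
    g ((2 : ℝ) • x) = gt g (fun i => (x i : UnitAddCircle)) := by
  unfold gt
  congr 2
  funext i
  have := (AddCircle.equivIoc 1 (-1 / 2 : ℝ)).apply_symm_apply ⟨x i, hx i⟩
  exact (congrArg Subtype.val this).symm

theorem gt_meas {m : ℕ} {g : (Fin m → ℝ) → ℂ} (hg : Measurable g) : Measurable (gt g) := by
  unfold gt
  apply hg.comp
  have h : Measurable (fun x : UnitAddTorus (Fin m) => fun i =>
      (AddCircle.equivIoc 1 (-1 / 2 : ℝ) (x i) : ℝ)) := by
    rw [measurable_pi_iff]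
    intro i
    exact (measurable_subtype_coe.comp
      (AddCircle.measurableEquivIoc 1 (-1 / 2 : ℝ)).measurable).comp (measurable_pi_apply i)
  exact h.const_smul (2 : ℝ)

/-- **APX** -/
theorem apx : ApxStm := by
  classical
  intro m g hg hfin ε hε
  have hnorm : ∫⁻ v in CB m, ‖g v‖ₑ ^ 2 = 2 ^ m * ∫⁻ x, ‖gt g x‖ₑ ^ 2 :=
    lintT (fun v => ‖g v‖ₑ ^ 2) (fun x => ‖gt g x‖ₑ ^ 2) (fun x hx => by rw [gt_coe g x hx])
  have h2m : (2 : ℝ≥0∞) ^ m ≠ 0 := by positivity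
  have h2t : (2 : ℝ≥0∞) ^ m ≠ ∞ := by simp
  have hfin2 : ∫⁻ x, ‖gt g x‖ₑ ^ 2 ≠ ∞ := by
    intro h
    rw [hnorm, h, ENNReal.mul_top h2m] at hfin
    exact hfin rfl
  have hmem : MemLp (gt g) 2 volume := by
    refine ⟨(gt_meas hg).aestronglyMeasurable, ?_⟩
    rw [eLpNorm_eq_lintegral_rpow_enorm_toReal (by norm_num) (by norm_num)]
    simp only [ENNReal.toReal_ofNat, ENNReal.rpow_ofNat]
    exact ENNReal.rpow_lt_top_of_nonneg (by norm_num) hfin2
  set φ := hmem.toLp (gt g) with hφ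
  have hφe : φ =ᵐ[volume] gt g := hmem.coeFn_toLp
  have hφn : ‖φ‖ₑ ^ 2 = ∫⁻ x, ‖gt g x‖ₑ ^ 2 := by
    rw [← l2norm]
    refine lintegral_congr_ae ?_
    filter_upwards [hφe] with x hx
    rw [hx]
  set a : (Fin m → ℤ) → ℂ := UnitAddTorus.mFourierCoeff φ with ha
  have hacoef : ∀ k, ∫ v in CB m, g v * (starRingEnd ℂ) (ek k v) =
      ((2 : ℝ≥0∞) ^ m).toReal • a k := by
    intro k
    rw [intT (fun v => g v * (starRingEnd ℂ) (ek k v))
      (fun x => gt g x * (starRingEnd ℂ) (UnitAddTorus.mFourier k x))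
      (fun x hx => by simp only [gt_coe g x hx, ek_two])]
    congr 1
    rw [ha]
    unfold UnitAddTorus.mFourierCoeff
    refine integral_congr_ae ?_
    filter_upwards [hφe] with x hx
    rw [hx, UnitAddTorus.mFourier_neg, smul_eq_mul, mul_comm]
  have hsum := UnitAddTorus.hasSum_mFourier_series_L2 φ
  have hlim : Tendsto (fun S : Finset (Fin m → ℤ) => (2 : ℝ≥0∞) ^ m *
      ‖φ - ∑ k ∈ S, a k • UnitAddTorus.mFourierLp (d := Fin m) 2 k‖ₑ ^ 2) atTop (𝓝 0) := by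
    have h1 : Tendsto (fun S : Finset (Fin m → ℤ) =>
        ‖φ - ∑ k ∈ S, a k • UnitAddTorus.mFourierLp (d := Fin m) 2 k‖ₑ) atTop (𝓝 0) := by
      have h2 : Tendsto (fun S : Finset (Fin m → ℤ) =>
        φ - ∑ k ∈ S, a k • UnitAddTorus.mFourierLp (d := Fin m) 2 k) atTop (𝓝 (φ - φ)) :=
        tendsto_const_nhds.sub hsum
      have h3 := (continuous_enorm.tendsto _).comp h2
      simpa [Function.comp_def] using h3
    have h4 := ENNReal.Tendsto.const_mul (a := (2 : ℝ≥0∞) ^ m)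
      ((ENNReal.continuous_pow 2).tendsto 0 |>.comp h1) (Or.inr h2t)
    simpa using h4
  obtain ⟨S0, hS0⟩ := (hlim.eventually_lt_const (pos_iff_ne_zero.2 hε)).exists
  refine ⟨S0.filter (fun k => a k ≠ 0), a, ?_, ?_, ?_⟩
  · intro k hk
    rw [Finset.mem_filter] at hk
    rw [hacoef]
    refine smul_ne_zero ?_ hk.2
    exact (ENNReal.toReal_pos h2m h2t).ne'
  · rw [hnorm, ← hφn]
    gcongr
    have hB := (UnitAddTorus.orthonormal_mFourier (d := Fin m)).sum_inner_products_le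
      (s := S0.filter (fun k => a k ≠ 0)) φ
    have hin : ∀ k, inner ℂ (UnitAddTorus.mFourierLp (d := Fin m) 2 k) φ = a k := by
      intro k
      rw [ha, ← UnitAddTorus.mFourierBasis_repr, HilbertBasis.repr_apply_apply,
        UnitAddTorus.coe_mFourierBasis]
    simp only [hin] at hB
    have e1 : ‖φ‖ₑ ^ 2 = ENNReal.ofReal (‖φ‖ ^ 2) := by
      rw [← ofReal_norm, ← ENNReal.ofReal_pow (norm_nonneg _)]
    have e2 : ∑ k ∈ S0.filter (fun k => a k ≠ 0), ‖a k‖ₑ ^ 2 =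
        ENNReal.ofReal (∑ k ∈ S0.filter (fun k => a k ≠ 0), ‖a k‖ ^ 2) := by
      rw [ENNReal.ofReal_sum_of_nonneg (fun _ _ => by positivity)]
      refine Finset.sum_congr rfl fun k _ => ?_
      rw [← ofReal_norm, ← ENNReal.ofReal_pow (norm_nonneg _)]
    rw [e1, e2]
    exact ENNReal.ofReal_le_ofReal hB
  · have hfil : ∑ k ∈ S0.filter (fun k => a k ≠ 0),
        a k • UnitAddTorus.mFourierLp (d := Fin m) 2 k =
        ∑ k ∈ S0, a k • UnitAddTorus.mFourierLp (d := Fin m) 2 k := by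
      rw [Finset.sum_filter]
      refine Finset.sum_congr rfl fun k _ => ?_
      by_cases h : a k = 0
      · simp [h]
      · simp [h]
    refine le_trans (le_of_eq ?_) hS0.le
    rw [lintT (fun v => ‖g v - trig (S0.filter (fun k => a k ≠ 0)) a v‖ₑ ^ 2)
      (fun x => ‖gt g x - (∑ k ∈ S0.filter (fun k => a k ≠ 0),
        a k • UnitAddTorus.mFourier k : C(UnitAddTorus (Fin m), ℂ)) x‖ₑ ^ 2)
      (fun x hx => by simp only [trig_two, gt_coe g x hx]), ← hfil]
    congr 1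
    rw [← l2norm]
    refine lintegral_congr_ae ?_
    filter_upwards [toLp_sum (S0.filter (fun k => a k ≠ 0)) a, hφe,
      Lp.coeFn_sub φ (∑ k ∈ S0.filter (fun k => a k ≠ 0),
        a k • UnitAddTorus.mFourierLp (d := Fin m) 2 k)] with x h1 h2 h3
    rw [h3, Pi.sub_apply, h1, h2]

end Pool.Agent.W597.LS
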